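import Pool.Agent.Lib.MP_b9fdbf_pr.Lit

/-!
# MP_b9fdbf_pr: worm percolation on `ℤ³` with power-law worm lengths

The statement of the problem in literal form, with the definitions of
`Pool.Agent.Lib.MP_b9fdbf_pr.Lit`.
-/

set_option autoImplicit false

open MeasureTheory ProbabilityTheory
open scoped ENNReal NNReal

namespace Pool.Agent.Results.MP_b9fdbf_pr.CriticalLevel

open Pool.Agent.Worm.Lit

/-- If `m(ℓ) ≍ ℓ^{-β}`, `β > 1`, then `v_c(m) > 0` if and only if `β ≥ 5/2`; and the percolation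
probability, hence `v_c(m)`, is the same for every realisation of the worm model, on any probability
space. -/
theorem result :
    (∀ (β : ℝ) (m : PMF ℕ), 1 < β → m 0 = 0 →
      (∃ c C : ℝ, 0 < c ∧ 0 < C ∧ ∀ ℓ : ℕ, 1 ≤ ℓ →
        c * (ℓ : ℝ) ^ (-β) ≤ (m ℓ).toReal ∧ (m ℓ).toReal ≤ C * (ℓ : ℝ) ^ (-β)) →
      (0 < criticalLevel m ↔ 5 / 2 ≤ β)) ∧
    (∀ (v : ℝ≥0) (m : PMF ℕ) (Ω : Type) [MeasurableSpace Ω] (P : Measure Ω)
      [IsProbabilityMeasure P] (N : Z3 → Ω → ℕ) (H : Z3 × ℕ → Ω → Finset Z3),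
      IsWormModel v m P N H →
      P {ω | Percolates (wormsSet (fun x => N x ω) fun q => H q ω)} = percProb v m) := by
  refine ⟨fun β m _ hm0 hm => ?_, fun v m Ω _ P _ N H h => h.prob_eq⟩
  obtain ⟨c, C, hc, hC, h⟩ := hm
  exact criticalLevel_pos_iff β m hm0 c C hc hC h

end Pool.Agent.Results.MP_b9fdbf_pr.CriticalLevel
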